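import Pool.Agent.Q295.KC.Upper

set_option autoImplicit false

/-!
# Connected `k`-conservative graphs: the examples
-/

namespace Pool.Agent.Q295.KC

open Finset

/-- adjacency or equality on the labels -/
def nb (s c : ℕ) : Prop := s = c ∨ s + 1 = c ∨ c + 1 = s ∨ (s = 0 ∧ c = 3) ∨ (s = 3 ∧ c = 0)

/-- The path `0, 1, …, N` with the extra edge `{0, 3}`. -/
def H (N : ℕ) : SimpleGraph (Fin (N + 1)) where
  Adj a b := a ≠ b ∧ (a.val + 1 = b.val ∨ b.val + 1 = a.val ∨ (a.val = 0 ∧ b.val = 3) ∨
    (a.val = 3 ∧ b.val = 0))
  symm := ⟨fun a b h => ⟨h.1.symm, by rcases h.2 with h | h | h | h <;> omega⟩⟩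
  loopless := ⟨fun a h => h.1 rfl⟩

instance (N : ℕ) : DecidableRel (H N).Adj := fun a b => by
  unfold H; infer_instance

theorem nb_iff {N : ℕ} (a b : Fin (N + 1)) : nb a.val b.val ↔ a = b ∨ (H N).Adj a b := by
  have h : a = b ↔ a.val = b.val := Fin.ext_iff
  simp only [nb, H, ne_eq, h]
  omega

theorem dominates_iff {N : ℕ} (A : Finset (Fin (N + 1))) (v : Fin (N + 1)) :
    Dominates (H N) A v ↔ ∃ a ∈ A, nb a.val v.val := by
  constructor
  · rintro (h | ⟨a, ha, hav⟩)
    · exact ⟨v, h, Or.inl rfl⟩
    · exact ⟨a, ha, (nb_iff a v).mpr (Or.inr hav)⟩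
  · rintro ⟨a, ha, hav⟩
    rcases (nb_iff a v).mp hav with h | h
    · exact Or.inl (h ▸ ha)
    · exact Or.inr ⟨a, ha, h⟩

/-- connectedness -/
theorem H_connected (N : ℕ) : (H N).Connected := by
  have h : ∀ m (hm : m < N + 1), (H N).Reachable ⟨0, by omega⟩ ⟨m, hm⟩ := by
    intro m
    induction m with
    | zero => intro hm; exact SimpleGraph.Reachable.refl _
    | succ m ih =>
      intro hm
      refine (ih (by omega)).trans (SimpleGraph.Adj.reachable ?_)
      refine ⟨fun h => ?_, Or.inl rfl⟩
      have := congrArg Fin.val h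
      simp at this
  rw [SimpleGraph.connected_iff]
  exact ⟨fun a b => (h a.val a.isLt).symm.trans (h b.val b.isLt), ⟨⟨0, by omega⟩⟩⟩

/-- a function which changes by at most one along every edge -/
theorem H_walk {N : ℕ} : ∀ {a b : Fin (N + 1)} (p : (H N).Walk a b),
    (if b.val = 0 then 2 else b.val) ≤ (if a.val = 0 then 2 else a.val) + p.length := by
  intro a b p
  induction p with
  | nil => simp
  | cons h p ih =>
    rw [SimpleGraph.Walk.length_cons]
    obtain ⟨h1, h2⟩ := h
    refine ih.trans ?_
    rcases h2 with h2 | h2 | h2 | h2 <;> split_ifs <;> omega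

theorem H_dist {N : ℕ} (hN : 1 ≤ N) :
    N - 1 ≤ (H N).dist ⟨1, by omega⟩ ⟨N, by omega⟩ := by
  obtain ⟨p, hp⟩ := (H_connected N).exists_walk_length_eq_dist ⟨1, by omega⟩ ⟨N, by omega⟩
  have h := H_walk p
  rw [← hp]
  by_cases h1 : N = 0
  · omega
  · rw [if_neg (show ¬ ((⟨N, by omega⟩ : Fin (N + 1)).val = 0) from h1),
      if_neg (show ¬ ((⟨1, by omega⟩ : Fin (N + 1)).val = 0) from one_ne_zero)] at h
    change N ≤ 1 + p.length at h
    omega

/-- weights bound the domination number from below -/
theorem weight_bound {N : ℕ} (w : ℕ → ℕ) (c : ℕ)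
    (h : ∀ a : Fin (N + 1), ∑ u : Fin (N + 1), (if a = u ∨ (H N).Adj a u then w u.val else 0) ≤ c)
    (A : Finset (Fin (N + 1))) (hA : ∀ v, Dominates (H N) A v) :
    ∑ u : Fin (N + 1), w u.val ≤ c * A.card := by
  calc ∑ u : Fin (N + 1), w u.val
      ≤ ∑ u : Fin (N + 1), ∑ a ∈ A, (if a = u ∨ (H N).Adj a u then w u.val else 0) := by
        refine sum_le_sum fun u _ => ?_
        obtain ⟨a, ha, hau⟩ := (dominates_iff A u).mp (hA u)
        rw [nb_iff] at hau
        calc w u.val = (if a = u ∨ (H N).Adj a u then w u.val else 0) := by rw [if_pos hau]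
          _ ≤ _ := single_le_sum (f := fun a => if a = u ∨ (H N).Adj a u then w u.val else 0)
                (fun _ _ => Nat.zero_le _) ha
    _ = ∑ a ∈ A, ∑ u : Fin (N + 1), (if a = u ∨ (H N).Adj a u then w u.val else 0) := sum_comm
    _ ≤ ∑ _a ∈ A, c := sum_le_sum fun a _ => h a
    _ = c * A.card := by rw [sum_const, smul_eq_mul, mul_comm]

/-- Building the set `S` of the definition from a description of `T = S ∪ {x}`. -/
theorem wit {N q : ℕ} (hγ : ∀ A : Finset (Fin (N + 1)), (∀ v, Dominates (H N) A v) → q + 1 ≤ A.card)
    {x y : Fin (N + 1)} (z : ℕ) (g : ℕ → ℕ) (hx : x.val = z ∨ ∃ t, t < q ∧ x.val = g t)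
    (hz : z ≤ N) (hg : ∀ t, t < q → g t ≤ N)
    (hdom : ∀ c, c ≤ N → c ≠ y.val → nb z c ∨ ∃ t, t < q ∧ nb (g t) c)
    (hmiss : ¬ nb z y.val ∧ ∀ t, t < q → ¬ nb (g t) y.val) :
    ∃ S : Finset (Fin (N + 1)), S.card = q ∧ PreciselyDominates (H N) (insert x S) y := by
  classical
  set T : Finset (Fin (N + 1)) := univ.filter fun v => v.val = z ∨ ∃ t, t < q ∧ v.val = g t with hT
  have hmem : ∀ v, v ∈ T ↔ (v.val = z ∨ ∃ t, t < q ∧ v.val = g t) := fun v => by simp [hT]
  have hcard : T.card ≤ q + 1 := by
    have h1 : T.image Fin.val ⊆ insert z ((range q).image g) := by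
      intro c hc
      rw [mem_image] at hc
      obtain ⟨v, hv, rfl⟩ := hc
      rw [mem_insert, mem_image]
      rcases (hmem v).mp hv with h | ⟨t, ht, h⟩
      · exact Or.inl h
      · exact Or.inr ⟨t, mem_range.mpr ht, h.symm⟩
    have h2 := card_le_card h1
    rw [card_image_of_injective _ Fin.val_injective] at h2
    have h3 := card_insert_le z ((range q).image g)
    have h4 : ((range q).image g).card ≤ q := card_image_le.trans (by simp)
    omega
  have hxT : x ∈ T := (hmem x).mpr hx
  have hPD : PreciselyDominates (H N) T y := by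
    constructor
    · intro v hv
      rw [dominates_iff]
      rcases hdom v.val (by omega) (fun h => hv (Fin.ext h)) with h | ⟨t, ht, h⟩
      · exact ⟨⟨z, by omega⟩, (hmem _).mpr (Or.inl rfl), h⟩
      · have := hg t ht
        exact ⟨⟨g t, by omega⟩, (hmem _).mpr (Or.inr ⟨t, ht, rfl⟩), h⟩
    · rw [dominates_iff]
      rintro ⟨a, ha, hay⟩
      rcases (hmem a).mp ha with h | ⟨t, ht, h⟩
      · rw [h] at hay; exact hmiss.1 hay
      · rw [h] at hay; exact hmiss.2 t ht hay
  have hlow : q ≤ T.card := by
    have h1 := hγ (insert y T) (fun v => by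
      rw [dominates_iff]
      by_cases hv : v = y
      · exact ⟨y, mem_insert_self _ _, by rw [hv]; exact Or.inl rfl⟩
      · obtain ⟨a, ha, h⟩ := (dominates_iff T v).mp (hPD.1 v hv)
        exact ⟨a, mem_insert_of_mem ha, h⟩)
    have h2 := card_insert_le y T
    omega
  by_cases hq : T.card = q
  · exact ⟨T, hq, by rw [insert_eq_self.mpr hxT]; exact hPD⟩
  · refine ⟨T.erase x, ?_, ?_⟩
    · rw [card_erase_of_mem hxT]; omega
    · rw [insert_erase hxT]; exact hPD

/-! ### The graphs for `k ≥ 5` -/

/-- the weights -/
def wt (j : ℕ) : ℕ := if j ≤ 3 then 1 else if j % 3 = 1 then 0 else if j % 3 = 2 then 2 else 1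

theorem sum_wt {q : ℕ} (hq : 1 ≤ q) : ∑ j ∈ range (3 * q + 1), wt j = 3 * q + 1 := by
  induction q, hq using Nat.le_induction with
  | base => decide
  | succ q hq ih =>
    rw [show 3 * (q + 1) + 1 = 3 * q + 1 + 1 + 1 + 1 by ring, sum_range_succ, sum_range_succ,
      sum_range_succ, ih]
    have h1 : wt (3 * q + 1) = 0 := by unfold wt; split_ifs <;> omega
    have h2 : wt (3 * q + 1 + 1) = 2 := by unfold wt; split_ifs <;> omega
    have h3 : wt (3 * q + 1 + 1 + 1) = 1 := by unfold wt; split_ifs <;> omega
    rw [h1, h2, h3]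

theorem nbhd_wt {N : ℕ} (a : Fin (N + 1)) :
    ∑ u : Fin (N + 1), (if a = u ∨ (H N).Adj a u then wt u.val else 0) ≤ 3 := by
  classical
  have h0 : ∀ u : Fin (N + 1), (if a = u ∨ (H N).Adj a u then wt u.val else 0) =
      (if nb a.val u.val then wt u.val else 0) := fun u => by
    simp only [nb_iff]
  rw [Finset.sum_congr rfl (fun u _ => h0 u),
    Fin.sum_univ_eq_sum_range (fun j => if nb a.val j then wt j else 0) (N + 1), ← sum_filter]
  obtain ⟨m, hm⟩ : ∃ m, m = a.val := ⟨_, rfl⟩
  rw [← hm]
  by_cases h3 : m = 3
  · subst h3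
    calc _ ≤ ∑ j ∈ ({0, 2, 3, 4} : Finset ℕ), wt j := by
          refine sum_le_sum_of_subset fun j hj => ?_
          rw [mem_filter] at hj
          simp only [mem_insert, mem_singleton]
          have := hj.2
          unfold nb at this
          omega
      _ ≤ 3 := by decide
  · by_cases h4 : m = 0
    · subst h4
      calc _ ≤ ∑ j ∈ ({0, 1, 3} : Finset ℕ), wt j := by
            refine sum_le_sum_of_subset fun j hj => ?_
            rw [mem_filter] at hj
            simp only [mem_insert, mem_singleton]
            have := hj.2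
            unfold nb at this
            omega
        _ ≤ 3 := by decide
    · calc _ ≤ ∑ j ∈ ({m - 1, m, m + 1} : Finset ℕ), wt j := by
            refine sum_le_sum_of_subset fun j hj => ?_
            rw [mem_filter] at hj
            simp only [mem_insert, mem_singleton]
            have := hj.2
            unfold nb at this
            omega
        _ ≤ 3 := by
            rw [sum_insert (by simp only [mem_insert, mem_singleton]; omega),
              sum_pair (by omega)]
            unfold wt
            split_ifs <;> omega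

theorem gamma_large {q : ℕ} (hq : 1 ≤ q) (A : Finset (Fin (3 * q + 1)))
    (hA : ∀ v, Dominates (H (3 * q)) A v) : q + 1 ≤ A.card := by
  have h := weight_bound wt 3 nbhd_wt A hA
  rw [Fin.sum_univ_eq_sum_range wt (3 * q + 1), sum_wt hq] at h
  omega

theorem H_large {q : ℕ} (hq : 1 ≤ q) : Conservative (q + 2) (H (3 * q)) := by
  have hγ := gamma_large hq
  have hcard : ∀ (z : ℕ) (g : ℕ → ℕ), z ≤ 3 * q → (∀ t, t < q → g t ≤ 3 * q) →
      (∀ c, c ≤ 3 * q → nb z c ∨ ∃ t, t < q ∧ nb (g t) c) →
      ∃ A : Finset (Fin (3 * q + 1)), A.card = q + 1 ∧ ∀ v, Dominates (H (3 * q)) A v := by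
    classical
    intro z g hz hg h
    refine ⟨univ.filter fun v => v.val = z ∨ ∃ t, t < q ∧ v.val = g t, ?_, ?_⟩
    · refine le_antisymm ?_ (hγ _ ?_)
      · have h1 : (univ.filter fun v : Fin (3 * q + 1) => v.val = z ∨ ∃ t, t < q ∧ v.val = g t).image
            Fin.val ⊆ insert z ((range q).image g) := by
          intro c hc
          rw [mem_image] at hc
          obtain ⟨v, hv, rfl⟩ := hc
          rw [mem_insert, mem_image]
          rcases (mem_filter.mp hv).2 with h | ⟨t, ht, h⟩
          · exact Or.inl h
          · exact Or.inr ⟨t, mem_range.mpr ht, h.symm⟩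
        have h2 := card_le_card h1
        rw [card_image_of_injective _ Fin.val_injective] at h2
        have h3 := card_insert_le z ((range q).image g)
        have h4 : ((range q).image g).card ≤ q := card_image_le.trans (by simp)
        omega
      · intro v
        rw [dominates_iff]
        rcases h v.val (by omega) with h | ⟨t, ht, h⟩
        · exact ⟨⟨z, by omega⟩, by simp, h⟩
        · have := hg t ht
          exact ⟨⟨g t, by omega⟩, by simp only [mem_filter, mem_univ, true_and]; exact Or.inr ⟨t, ht, rfl⟩, h⟩
    · intro v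
      rw [dominates_iff]
      rcases h v.val (by omega) with h | ⟨t, ht, h⟩
      · exact ⟨⟨z, by omega⟩, by simp, h⟩
      · have := hg t ht
        exact ⟨⟨g t, by omega⟩, by simp only [mem_filter, mem_univ, true_and]; exact Or.inr ⟨t, ht, rfl⟩, h⟩
  refine ⟨⟨?_, ?_⟩, ?_⟩
  · rw [show q + 2 - 1 = q + 1 by omega]
    refine hcard 0 (fun t => 3 * t + 2) (by omega) (fun t ht => by show 3 * t + 2 ≤ 3 * q; omega) ?_
    intro c hc
    by_cases h0 : c = 0
    · exact Or.inl (by unfold nb; omega)
    · exact Or.inr ⟨(c - 1) / 3, by omega, by unfold nb; omega⟩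
  · rw [show q + 2 - 1 = q + 1 by omega]
    exact hγ
  · rw [show q + 2 - 2 = q by omega]
    -- vertices which can be missed together with any `x`
    have good : ∀ x y : Fin (3 * q + 1), x ≠ y → ¬ (H (3 * q)).Adj x y → (y.val ≤ 2 ∨ y.val % 3 = 0) →
        ∃ S : Finset (Fin (3 * q + 1)), S.card = q ∧
          PreciselyDominates (H (3 * q)) (insert x S) y := by
      intro x y hxy hadj hy
      have hnb : ¬ nb x.val y.val := fun h => by
        rcases (nb_iff x y).mp h with h | h
        · exact hxy h
        · exact hadj h
      have hxN : x.val ≤ 3 * q := by omega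
      have hyN : y.val ≤ 3 * q := by omega
      by_cases h2 : y.val = 2
      · refine wit hγ x.val (fun t => if t = 0 then 0 else 3 * t + 2) (Or.inl rfl) hxN
          (fun t ht => by show (if t = 0 then 0 else 3 * t + 2) ≤ 3 * q; split_ifs <;> omega) ?_ ?_
        · intro c hc hne
          right
          by_cases hc3 : c ≤ 3
          · refine ⟨0, by omega, ?_⟩
            show nb (if (0 : ℕ) = 0 then 0 else 3 * 0 + 2) c
            rw [if_pos rfl]; unfold nb; omega
          · refine ⟨(c - 1) / 3, by omega, ?_⟩
            show nb (if (c - 1) / 3 = 0 then 0 else 3 * ((c - 1) / 3) + 2) c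
            split_ifs <;> (unfold nb; omega)
        · refine ⟨hnb, fun t ht => ?_⟩
          show ¬ nb (if t = 0 then 0 else 3 * t + 2) y.val
          split_ifs <;> (unfold nb; omega)
      · by_cases h0 : y.val = 0
        · refine wit hγ x.val (fun t => 3 * t + 2) (Or.inl rfl) hxN
            (fun t ht => by show 3 * t + 2 ≤ 3 * q; omega) ?_ ?_
          · intro c hc hne
            exact Or.inr ⟨(c - 1) / 3, by omega, by unfold nb; omega⟩
          · refine ⟨hnb, fun t ht => ?_⟩
            show ¬ nb (3 * t + 2) y.val
            unfold nb; omega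
        · by_cases h1 : y.val = 1
          · refine wit hγ x.val (fun t => 3 * t + 3) (Or.inl rfl) hxN
              (fun t ht => by show 3 * t + 3 ≤ 3 * q; omega) ?_ ?_
            · intro c hc hne
              exact Or.inr ⟨(c - 2) / 3, by omega, by unfold nb; omega⟩
            · refine ⟨hnb, fun t ht => ?_⟩
              show ¬ nb (3 * t + 3) y.val
              unfold nb; omega
          · obtain ⟨a, ha⟩ : ∃ a, y.val = 3 * a + 3 := ⟨y.val / 3 - 1, by omega⟩
            refine wit hγ x.val (fun t => if t ≤ a then 3 * t + 1 else 3 * t + 2) (Or.inl rfl) hxN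
              (fun t ht => by
                show (if t ≤ a then 3 * t + 1 else 3 * t + 2) ≤ 3 * q; split_ifs <;> omega) ?_ ?_
            · intro c hc hne
              right
              by_cases hc3 : c ≤ 3 * a + 2
              · refine ⟨c / 3, by omega, ?_⟩
                show nb (if c / 3 ≤ a then 3 * (c / 3) + 1 else 3 * (c / 3) + 2) c
                split_ifs <;> (unfold nb; omega)
              · refine ⟨(c - 1) / 3, by omega, ?_⟩
                show nb (if (c - 1) / 3 ≤ a then 3 * ((c - 1) / 3) + 1 else 3 * ((c - 1) / 3) + 2) c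
                split_ifs <;> (unfold nb; omega)
            · refine ⟨hnb, fun t ht => ?_⟩
              show ¬ nb (if t ≤ a then 3 * t + 1 else 3 * t + 2) y.val
              split_ifs <;> (unfold nb; omega)
    -- the remaining pairs, with `x < y`
    have rest : ∀ x y : Fin (3 * q + 1), x.val + 1 < y.val → ¬ (x.val ≤ 2 ∨ x.val % 3 = 0) →
        ¬ (y.val ≤ 2 ∨ y.val % 3 = 0) →
        ∃ S : Finset (Fin (3 * q + 1)), S.card = q ∧
          (PreciselyDominates (H (3 * q)) (insert x S) y ∨
            PreciselyDominates (H (3 * q)) (insert y S) x) := by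
      intro x y hxy hx hy
      have hyN : y.val ≤ 3 * q := by omega
      obtain ⟨a, ha⟩ : ∃ a, a = x.val / 3 := ⟨_, rfl⟩
      obtain ⟨b, hb⟩ : ∃ b, b = y.val / 3 := ⟨_, rfl⟩
      have ha1 : 1 ≤ a := by omega
      have hab : a < b := by omega
      have hbq : b < q := by omega
      rcases (show x.val = 3 * a + 1 ∨ x.val = 3 * a + 2 by omega) with hx1 | hx1 <;>
        rcases (show y.val = 3 * b + 1 ∨ y.val = 3 * b + 2 by omega) with hy1 | hy1
      · -- `x ∈ T`, `y` missed
        obtain ⟨S, hS, h⟩ := wit (x := x) (y := y) hγ (3 * b - 1)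
          (fun t => if t < b then 3 * t + 1 else 3 * t + 3)
          (Or.inr ⟨a, by omega, by show x.val = (if a < b then 3 * a + 1 else 3 * a + 3); split_ifs <;> omega⟩)
          (by omega) (fun t ht => by
            show (if t < b then 3 * t + 1 else 3 * t + 3) ≤ 3 * q; split_ifs <;> omega)
          (by
            intro c hc hne
            by_cases h1 : c = 3 * b
            · left; unfold nb; omega
            · right
              by_cases hc3 : c < 3 * b
              · refine ⟨c / 3, by omega, ?_⟩
                show nb (if c / 3 < b then 3 * (c / 3) + 1 else 3 * (c / 3) + 3) c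
                split_ifs <;> (unfold nb; omega)
              · refine ⟨(c - 2) / 3, by omega, ?_⟩
                show nb (if (c - 2) / 3 < b then 3 * ((c - 2) / 3) + 1 else 3 * ((c - 2) / 3) + 3) c
                split_ifs <;> (unfold nb; omega))
          (by
            refine ⟨by unfold nb; omega, fun t ht => ?_⟩
            show ¬ nb (if t < b then 3 * t + 1 else 3 * t + 3) y.val
            split_ifs <;> (unfold nb; omega))
        exact ⟨S, hS, Or.inl h⟩
      · -- `(3 a + 1, 3 b + 2)`: `x` missed
        obtain ⟨S, hS, h⟩ := wit (x := y) (y := x) hγ (3 * a - 1)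
          (fun t => if t < a then 3 * t + 1 else if t < b then 3 * t + 3 else 3 * t + 2)
          (Or.inr ⟨b, by omega, by
            show y.val = (if b < a then 3 * b + 1 else if b < b then 3 * b + 3 else 3 * b + 2)
            split_ifs <;> omega⟩)
          (by omega) (fun t ht => by
            show (if t < a then 3 * t + 1 else if t < b then 3 * t + 3 else 3 * t + 2) ≤ 3 * q
            split_ifs <;> omega)
          (by
            intro c hc hne
            by_cases h1 : c = 3 * a
            · left; unfold nb; omega
            · right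
              by_cases hc3 : c < 3 * a
              · refine ⟨c / 3, by omega, ?_⟩
                show nb (if c / 3 < a then 3 * (c / 3) + 1 else if c / 3 < b then 3 * (c / 3) + 3
                  else 3 * (c / 3) + 2) c
                split_ifs <;> (unfold nb; omega)
              · by_cases hc4 : c < 3 * b + 2
                · refine ⟨(c - 2) / 3, by omega, ?_⟩
                  show nb (if (c - 2) / 3 < a then 3 * ((c - 2) / 3) + 1 else
                    if (c - 2) / 3 < b then 3 * ((c - 2) / 3) + 3 else 3 * ((c - 2) / 3) + 2) c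
                  split_ifs <;> (unfold nb; omega)
                · refine ⟨(c - 1) / 3, by omega, ?_⟩
                  show nb (if (c - 1) / 3 < a then 3 * ((c - 1) / 3) + 1 else
                    if (c - 1) / 3 < b then 3 * ((c - 1) / 3) + 3 else 3 * ((c - 1) / 3) + 2) c
                  split_ifs <;> (unfold nb; omega))
          (by
            refine ⟨by unfold nb; omega, fun t ht => ?_⟩
            show ¬ nb (if t < a then 3 * t + 1 else if t < b then 3 * t + 3 else 3 * t + 2) x.val
            split_ifs <;> (unfold nb; omega))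
        exact ⟨S, hS, Or.inr h⟩
      · -- `(3 a + 2, 3 b + 1)`: `x` missed
        obtain ⟨S, hS, h⟩ := wit (x := y) (y := x) hγ 1
          (fun t => if t < a then 3 * t + 3 else if t + 1 < q then 3 * t + 4 else 3 * q)
          (Or.inr ⟨b - 1, by omega, by
            show y.val = (if b - 1 < a then 3 * (b - 1) + 3 else
              if b - 1 + 1 < q then 3 * (b - 1) + 4 else 3 * q)
            split_ifs <;> omega⟩)
          (by omega) (fun t ht => by
            show (if t < a then 3 * t + 3 else if t + 1 < q then 3 * t + 4 else 3 * q) ≤ 3 * q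
            split_ifs <;> omega)
          (by
            intro c hc hne
            by_cases h1 : c ≤ 1
            · left; unfold nb; omega
            · right
              by_cases hc3 : c < 3 * a + 2
              · refine ⟨(c - 2) / 3, by omega, ?_⟩
                show nb (if (c - 2) / 3 < a then 3 * ((c - 2) / 3) + 3 else
                  if (c - 2) / 3 + 1 < q then 3 * ((c - 2) / 3) + 4 else 3 * q) c
                split_ifs <;> (unfold nb; omega)
              · refine ⟨(c - 3) / 3, by omega, ?_⟩
                show nb (if (c - 3) / 3 < a then 3 * ((c - 3) / 3) + 3 else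
                  if (c - 3) / 3 + 1 < q then 3 * ((c - 3) / 3) + 4 else 3 * q) c
                split_ifs <;> (unfold nb; omega))
          (by
            refine ⟨by unfold nb; omega, fun t ht => ?_⟩
            show ¬ nb (if t < a then 3 * t + 3 else if t + 1 < q then 3 * t + 4 else 3 * q) x.val
            split_ifs <;> (unfold nb; omega))
        exact ⟨S, hS, Or.inr h⟩
      · -- `(3 a + 2, 3 b + 2)`: `x` missed
        obtain ⟨S, hS, h⟩ := wit (x := y) (y := x) hγ 1
          (fun t => if t < a then 3 * t + 3 else if t < b then 3 * t + 4 else 3 * t + 2)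
          (Or.inr ⟨b, by omega, by
            show y.val = (if b < a then 3 * b + 3 else if b < b then 3 * b + 4 else 3 * b + 2)
            split_ifs <;> omega⟩)
          (by omega) (fun t ht => by
            show (if t < a then 3 * t + 3 else if t < b then 3 * t + 4 else 3 * t + 2) ≤ 3 * q
            split_ifs <;> omega)
          (by
            intro c hc hne
            by_cases h1 : c ≤ 1
            · left; unfold nb; omega
            · right
              by_cases hc3 : c < 3 * a + 2
              · refine ⟨(c - 2) / 3, by omega, ?_⟩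
                show nb (if (c - 2) / 3 < a then 3 * ((c - 2) / 3) + 3 else
                  if (c - 2) / 3 < b then 3 * ((c - 2) / 3) + 4 else 3 * ((c - 2) / 3) + 2) c
                split_ifs <;> (unfold nb; omega)
              · by_cases hc4 : c < 3 * b + 3
                · refine ⟨(c - 3) / 3, by omega, ?_⟩
                  show nb (if (c - 3) / 3 < a then 3 * ((c - 3) / 3) + 3 else
                    if (c - 3) / 3 < b then 3 * ((c - 3) / 3) + 4 else 3 * ((c - 3) / 3) + 2) c
                  split_ifs <;> (unfold nb; omega)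
                · refine ⟨(c - 1) / 3, by omega, ?_⟩
                  show nb (if (c - 1) / 3 < a then 3 * ((c - 1) / 3) + 3 else
                    if (c - 1) / 3 < b then 3 * ((c - 1) / 3) + 4 else 3 * ((c - 1) / 3) + 2) c
                  split_ifs <;> (unfold nb; omega))
          (by
            refine ⟨by unfold nb; omega, fun t ht => ?_⟩
            show ¬ nb (if t < a then 3 * t + 3 else if t < b then 3 * t + 4 else 3 * t + 2) x.val
            split_ifs <;> (unfold nb; omega))
        exact ⟨S, hS, Or.inr h⟩
    intro x y hxy hadj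
    by_cases hy : y.val ≤ 2 ∨ y.val % 3 = 0
    · obtain ⟨S, hS, h⟩ := good x y hxy hadj hy
      exact ⟨S, hS, Or.inl h⟩
    · by_cases hx : x.val ≤ 2 ∨ x.val % 3 = 0
      · obtain ⟨S, hS, h⟩ := good y x hxy.symm (fun h => hadj h.symm) hx
        exact ⟨S, hS, Or.inr h⟩
      · have hnb : ¬ nb x.val y.val := fun h => by
          rcases (nb_iff x y).mp h with h | h
          · exact hxy h
          · exact hadj h
        unfold nb at hnb
        rcases lt_or_gt_of_ne (show x.val ≠ y.val by omega) with h | h
        · exact rest x y (by omega) hx hy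
        · obtain ⟨S, hS, h'⟩ := rest y x (by omega) hy hx
          exact ⟨S, hS, h'.symm⟩

end Pool.Agent.Q295.KC
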