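import Pool.Agent.Q295.KC.Lower

set_option autoImplicit false

/-!
# Connected `k`-conservative graphs: the examples for `k ≤ 4`
-/

namespace Pool.Agent.Q295.KC

open Finset

instance (s c : ℕ) : Decidable (nb s c) := by unfold nb; infer_instance

theorem two : Conservative 2 (H 2) := by
  refine ⟨⟨⟨{1}, rfl, ?_⟩, ?_⟩, ?_⟩
  · intro v
    rw [dominates_iff]
    revert v
    decide
  · intro A hA
    have := weight_bound (N := 2) (fun j => if j = 1 then 1 else 0) 1 (by decide) A hA
    have h : (∑ u : Fin (2 + 1), (fun j => if j = 1 then 1 else 0) u.val) = 1 := by decide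
    rw [h] at this
    omega
  · intro x y hxy hadj
    refine ⟨∅, rfl, Or.inl ⟨?_, ?_⟩⟩
    · intro v hv
      rw [dominates_iff]
      revert x y v
      decide
    · rw [dominates_iff]
      revert x y
      decide

theorem three_aux : ∀ x y : Fin (5 + 1), ¬ nb x.val y.val → ∃ s : Fin (5 + 1),
    (((∀ v : Fin (5 + 1), v ≠ y → nb x.val v.val ∨ nb s.val v.val) ∧
      ¬ nb x.val y.val ∧ ¬ nb s.val y.val) ∨
    ((∀ v : Fin (5 + 1), v ≠ x → nb y.val v.val ∨ nb s.val v.val) ∧
      ¬ nb y.val x.val ∧ ¬ nb s.val x.val)) := by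
  decide +kernel

theorem four_aux : ∀ x y : Fin (7 + 1), ¬ nb x.val y.val → ∃ s t : Fin (7 + 1), s ≠ t ∧
    (((∀ v : Fin (7 + 1), v ≠ y → nb x.val v.val ∨ nb s.val v.val ∨ nb t.val v.val) ∧
      ¬ nb x.val y.val ∧ ¬ nb s.val y.val ∧ ¬ nb t.val y.val) ∨
    ((∀ v : Fin (7 + 1), v ≠ x → nb y.val v.val ∨ nb s.val v.val ∨ nb t.val v.val) ∧
      ¬ nb y.val x.val ∧ ¬ nb s.val x.val ∧ ¬ nb t.val x.val)) := by
  decide +kernel

theorem three : Conservative 3 (H 5) := by
  refine ⟨⟨⟨{1, 4}, rfl, ?_⟩, ?_⟩, ?_⟩
  · intro v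
    rw [dominates_iff]
    revert v
    decide
  · intro A hA
    have := weight_bound (N := 5) (fun j => if j % 3 = 1 then 1 else 0) 1 (by decide) A hA
    have h : (∑ u : Fin (5 + 1), (fun j => if j % 3 = 1 then 1 else 0) u.val) = 2 := by decide
    rw [h] at this
    omega
  · intro x y hxy hadj
    have hnb : ¬ nb x.val y.val := fun h => by
      rcases (nb_iff x y).mp h with h | h
      · exact hxy h
      · exact hadj h
    obtain ⟨s, h⟩ := three_aux x y hnb
    refine ⟨{s}, rfl, ?_⟩
    rcases h with h | h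
    · refine Or.inl ⟨fun v hv => ?_, ?_⟩
      · rw [dominates_iff]
        rcases h.1 v hv with h' | h'
        · exact ⟨x, by simp, h'⟩
        · exact ⟨s, by simp, h'⟩
      · rw [dominates_iff]
        rintro ⟨a, ha, h'⟩
        rw [mem_insert, mem_singleton] at ha
        rcases ha with rfl | rfl
        · exact h.2.1 h'
        · exact h.2.2 h'
    · refine Or.inr ⟨fun v hv => ?_, ?_⟩
      · rw [dominates_iff]
        rcases h.1 v hv with h' | h'
        · exact ⟨y, by simp, h'⟩
        · exact ⟨s, by simp, h'⟩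
      · rw [dominates_iff]
        rintro ⟨a, ha, h'⟩
        rw [mem_insert, mem_singleton] at ha
        rcases ha with rfl | rfl
        · exact h.2.1 h'
        · exact h.2.2 h'

theorem four : Conservative 4 (H 7) := by
  refine ⟨⟨⟨{1, 4, 7}, rfl, ?_⟩, ?_⟩, ?_⟩
  · intro v
    rw [dominates_iff]
    revert v
    decide
  · intro A hA
    have := weight_bound (N := 7) (fun j => if j % 3 = 1 then 1 else 0) 1 (by decide) A hA
    have h : (∑ u : Fin (7 + 1), (fun j => if j % 3 = 1 then 1 else 0) u.val) = 3 := by decide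
    rw [h] at this
    omega
  · intro x y hxy hadj
    have hnb : ¬ nb x.val y.val := fun h => by
      rcases (nb_iff x y).mp h with h | h
      · exact hxy h
      · exact hadj h
    obtain ⟨s, t, hst, h⟩ := four_aux x y hnb
    refine ⟨{s, t}, card_pair hst, ?_⟩
    rcases h with h | h
    · refine Or.inl ⟨fun v hv => ?_, ?_⟩
      · rw [dominates_iff]
        rcases h.1 v hv with h' | h' | h'
        · exact ⟨x, by simp, h'⟩
        · exact ⟨s, by simp, h'⟩
        · exact ⟨t, by simp, h'⟩
      · rw [dominates_iff]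
        rintro ⟨a, ha, h'⟩
        rw [mem_insert, mem_insert, mem_singleton] at ha
        rcases ha with rfl | rfl | rfl
        · exact h.2.1 h'
        · exact h.2.2.1 h'
        · exact h.2.2.2 h'
    · refine Or.inr ⟨fun v hv => ?_, ?_⟩
      · rw [dominates_iff]
        rcases h.1 v hv with h' | h' | h'
        · exact ⟨y, by simp, h'⟩
        · exact ⟨s, by simp, h'⟩
        · exact ⟨t, by simp, h'⟩
      · rw [dominates_iff]
        rintro ⟨a, ha, h'⟩
        rw [mem_insert, mem_insert, mem_singleton] at ha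
        rcases ha with rfl | rfl | rfl
        · exact h.2.1 h'
        · exact h.2.2.1 h'
        · exact h.2.2.2 h'

end Pool.Agent.Q295.KC
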