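import Mathlib

set_option autoImplicit false

/-!
# Connected `k`-conservative graphs: definitions and the upper bound for the diameter
-/

namespace Pool.Agent.Q295.KC

open Finset

variable {V : Type*}

/-- The set `A` dominates the vertex `v`: `v` lies in `A` or has a neighbour in `A`. -/
def Dominates (G : SimpleGraph V) (A : Finset V) (v : V) : Prop :=
  v ∈ A ∨ ∃ a ∈ A, G.Adj a v

/-- `γ(G) = m`: some `m`-element set dominates every vertex, and no smaller set does. -/
def DominationNumberIs (G : SimpleGraph V) (m : ℕ) : Prop :=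
  (∃ A : Finset V, A.card = m ∧ ∀ v, Dominates G A v) ∧
    ∀ A : Finset V, (∀ v, Dominates G A v) → m ≤ A.card

/-- `A` precisely dominates `G - y`: it dominates every vertex other than `y`, and does not
dominate `y`. -/
def PreciselyDominates (G : SimpleGraph V) (A : Finset V) (y : V) : Prop :=
  (∀ v, v ≠ y → Dominates G A v) ∧ ¬ Dominates G A y

/-- `G` is `k`-conservative (`k ≥ 2`): `γ(G) = k - 1` and for all non-adjacent vertices `x`, `y`
some set `S` of `k - 2` vertices is such that `S ∪ {x}` precisely dominates `G - y` or `S ∪ {y}`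
precisely dominates `G - x`. -/
def Conservative [DecidableEq V] (k : ℕ) (G : SimpleGraph V) : Prop :=
  DominationNumberIs G (k - 1) ∧
    ∀ x y : V, x ≠ y → ¬ G.Adj x y →
      ∃ S : Finset V, S.card = k - 2 ∧
        (PreciselyDominates G (insert x S) y ∨ PreciselyDominates G (insert y S) x)

section upper

variable {G : SimpleGraph V}

/-- vertices at every level up to the distance of `u` and `v` -/
theorem exists_level (hc : G.Connected) {u v : V} {i : ℕ} (hi : i ≤ G.dist u v) :
    ∃ w, G.dist u w = i := by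
  obtain ⟨p, hp⟩ := hc.exists_walk_length_eq_dist u v
  refine ⟨p.getVert i, ?_⟩
  have h1 : G.dist u (p.getVert i) ≤ i := by
    have := G.dist_le (p.take i)
    rw [SimpleGraph.Walk.take_length] at this
    omega
  have h2 : G.dist (p.getVert i) v ≤ G.dist u v - i := by
    have := G.dist_le (p.drop i)
    rw [SimpleGraph.Walk.drop_length] at this
    omega
  have h3 := hc.dist_triangle (u := u) (v := p.getVert i) (w := v)
  omega

theorem lev_adj (hc : G.Connected) {x a b : V} (h : G.Adj a b) :
    G.dist x b ≤ G.dist x a + 1 := by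
  have h1 := hc.dist_triangle (u := x) (v := a) (w := b)
  have h2 := SimpleGraph.dist_eq_one_iff_adj.mpr h
  omega

/-- A dominator has a level within one of the level of the dominated vertex. -/
theorem lev_dom (hc : G.Connected) {x v : V} {T : Finset V} (h : Dominates G T v) :
    ∃ t ∈ T, (t = v ∨ G.Adj t v) ∧ G.dist x t ≤ G.dist x v + 1 ∧ G.dist x v ≤ G.dist x t + 1 := by
  rcases h with h | ⟨a, ha, hav⟩
  · exact ⟨v, h, Or.inl rfl, by omega, by omega⟩
  · exact ⟨a, ha, Or.inr hav, lev_adj hc hav.symm, lev_adj hc hav⟩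

variable [DecidableEq V]

/-- Counting: if the levels `3 i`, `s ≤ i < s + r`, contain vertices dominated by `T`, then `T` has at
least `r` elements of level at least `3 s - 1`. -/
theorem count (hc : G.Connected) (x : V) (T : Finset V) (s r : ℕ)
    (h : ∀ i, s ≤ i → i < s + r → ∃ v, G.dist x v = 3 * i ∧ Dominates G T v) :
    r ≤ (T.filter (fun t => 3 * s ≤ G.dist x t + 1)).card := by
  classical
  have h' : ∀ i : ℕ, ∃ t : V, (s ≤ i → i < s + r → t ∈ T ∧ G.dist x t ≤ 3 * i + 1 ∧
      3 * i ≤ G.dist x t + 1) := by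
    intro i
    by_cases hi : s ≤ i ∧ i < s + r
    · obtain ⟨v, hv, hd⟩ := h i hi.1 hi.2
      obtain ⟨t, ht, -, h1, h2⟩ := lev_dom (x := x) hc hd
      exact ⟨t, fun _ _ => ⟨ht, by omega, by omega⟩⟩
    · exact ⟨x, fun h1 h2 => absurd ⟨h1, h2⟩ hi⟩
  choose f hf using h'
  have hsub : (Finset.Ico s (s + r)).image f ⊆ T.filter (fun t => 3 * s ≤ G.dist x t + 1) := by
    intro t ht
    rw [mem_image] at ht
    obtain ⟨i, hi, rfl⟩ := ht
    rw [mem_Ico] at hi
    obtain ⟨h1, h2, h3⟩ := hf i hi.1 hi.2
    rw [mem_filter]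
    exact ⟨h1, by omega⟩
  have hcard : ((Finset.Ico s (s + r)).image f).card = r := by
    rw [card_image_of_injOn]
    · simp
    · intro i hi j hj hij
      rw [coe_Ico, Set.mem_Ico] at hi hj
      obtain ⟨-, h2, h3⟩ := hf i hi.1 hi.2
      obtain ⟨-, h4, h5⟩ := hf j hj.1 hj.2
      replace hij : f i = f j := hij
      rw [hij] at h2 h3
      omega
  calc r = ((Finset.Ico s (s + r)).image f).card := hcard.symm
    _ ≤ _ := card_le_card hsub

theorem card_insert_le' {S : Finset V} {x : V} {q : ℕ} (h : S.card = q) :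
    (insert x S).card ≤ q + 1 := by
  have := card_insert_le x S
  omega

/-- **Lemma A.** If some vertex is at distance at least `3 q` from `x₀` (`q ≥ 3`, `k = q + 2`), then
some neighbour `r` of `x₀` dominates every vertex at distance at most `2` from `x₀`. -/
theorem lemA (hc : G.Connected) {q : ℕ} (hq : 3 ≤ q) (hG : Conservative (q + 2) G) {x₀ x₁ : V}
    (hd : 3 * q ≤ G.dist x₀ x₁) :
    ∃ r, G.dist x₀ r = 1 ∧ ∀ u, G.dist x₀ u ≤ 2 → (r = u ∨ G.Adj r u) := by
  classical
  obtain ⟨x, hx⟩ := exists_level hc (u := x₀) (v := x₁) (i := 4) (by omega)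
  obtain ⟨y, hy⟩ := exists_level hc (u := x₀) (v := x₁) (i := 7) (by omega)
  obtain ⟨z, hz⟩ := exists_level hc (u := x₀) (v := x₁) (i := 2) (by omega)
  have hxy : x ≠ y := by rintro rfl; omega
  have hadj : ¬ G.Adj x y := fun h => by
    have := lev_adj (x := x₀) hc h; omega
  obtain ⟨S, hS, h⟩ := hG.2 x y hxy hadj
  have hS' : S.card = q := by omega
  -- it suffices to find `r ∈ T` which is the only element of `T` of level at most `3`
  have key : ∀ T : Finset V, ∀ y' : V, 3 < G.dist x₀ y' → PreciselyDominates G T y' →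
      (∃ r ∈ T, G.dist x₀ r ≤ 1 ∧ ∀ t ∈ T, G.dist x₀ t ≤ 3 → t = r) →
      ∃ r, G.dist x₀ r = 1 ∧ ∀ u, G.dist x₀ u ≤ 2 → (r = u ∨ G.Adj r u) := by
    rintro T y' hy' hT ⟨r, -, hr1, hr⟩
    have hall : ∀ u, G.dist x₀ u ≤ 2 → (r = u ∨ G.Adj r u) := by
      intro u hu
      obtain ⟨t, ht, h1, h2, -⟩ := lev_dom (x := x₀) hc (hT.1 u (by rintro rfl; omega))
      rw [← hr t ht (by omega)]
      exact h1
    refine ⟨r, ?_, hall⟩
    rcases hall z (by omega) with h1 | h1
    · subst h1; omega
    · have := lev_adj (x := x₀) hc h1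
      omega
  have hx0 : G.dist x₀ x₀ = 0 := SimpleGraph.dist_self
  rcases h with h | h
  · -- `x ∈ T`, `y` missed
    set T := insert x S with hTdef
    have hTc : T.card ≤ q + 1 := card_insert_le' hS'
    refine key T y (by omega) h ?_
    have hA : q - 1 ≤ (T.filter (fun t => 3 * 2 ≤ G.dist x₀ t + 1)).card := by
      refine count hc x₀ T 2 (q - 1) fun i hi hi' => ?_
      obtain ⟨v, hv⟩ := exists_level hc (u := x₀) (v := x₁) (i := 3 * i) (by omega)
      exact ⟨v, hv, h.1 v (by rintro rfl; omega)⟩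
    have hB : (T.filter (fun t => G.dist x₀ t ≤ 3)).card ≤ 1 := by
      have hdisj : (T.filter (fun t => 3 * 2 ≤ G.dist x₀ t + 1)).card +
          ((T.filter (fun t => G.dist x₀ t ≤ 3)).card + ({x} : Finset V).card) ≤ T.card := by
        rw [← card_union_of_disjoint, ← card_union_of_disjoint]
        · refine card_le_card fun t ht => ?_
          simp only [mem_union, mem_filter, mem_singleton] at ht
          rcases ht with ht | ht | ht
          · exact ht.1
          · exact ht.1
          · rw [ht, hTdef]; exact mem_insert_self _ _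
        · rw [disjoint_left]
          intro t ht
          simp only [mem_union, mem_filter, mem_singleton] at ht ⊢
          rintro (h1 | rfl)
          · omega
          · omega
        · rw [disjoint_left]
          intro t ht
          simp only [mem_filter, mem_singleton] at ht ⊢
          rintro rfl
          omega
      rw [card_singleton] at hdisj
      omega
    obtain ⟨r, hr, -, hr1, -⟩ := lev_dom (x := x₀) hc (h.1 x₀ (by rintro rfl; omega))
    refine ⟨r, hr, by omega, fun t ht ht3 => ?_⟩
    exact card_le_one.mp hB t (by simp [ht, ht3]) r (by simp only [mem_filter]; exact ⟨hr, by omega⟩)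
  · -- `y ∈ T`, `x` missed
    set T := insert y S with hTdef
    have hTc : T.card ≤ q + 1 := card_insert_le' hS'
    refine key T x (by omega) h ?_
    have hA : q - 2 ≤ (T.filter (fun t => 3 * 3 ≤ G.dist x₀ t + 1)).card := by
      refine count hc x₀ T 3 (q - 2) fun i hi hi' => ?_
      obtain ⟨v, hv⟩ := exists_level hc (u := x₀) (v := x₁) (i := 3 * i) (by omega)
      exact ⟨v, hv, h.1 v (by rintro rfl; omega)⟩
    have hB : (T.filter (fun t => G.dist x₀ t ≤ 6)).card ≤ 2 := by
      have hdisj : (T.filter (fun t => 3 * 3 ≤ G.dist x₀ t + 1)).card +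
          ((T.filter (fun t => G.dist x₀ t ≤ 6)).card + ({y} : Finset V).card) ≤ T.card := by
        rw [← card_union_of_disjoint, ← card_union_of_disjoint]
        · refine card_le_card fun t ht => ?_
          simp only [mem_union, mem_filter, mem_singleton] at ht
          rcases ht with ht | ht | ht
          · exact ht.1
          · exact ht.1
          · rw [ht, hTdef]; exact mem_insert_self _ _
        · rw [disjoint_left]
          intro t ht
          simp only [mem_union, mem_filter, mem_singleton] at ht ⊢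
          rintro (h1 | rfl)
          · omega
          · omega
        · rw [disjoint_left]
          intro t ht
          simp only [mem_filter, mem_singleton] at ht ⊢
          rintro rfl
          omega
      rw [card_singleton] at hdisj
      omega
    obtain ⟨r, hr, -, hr1, -⟩ := lev_dom (x := x₀) hc (h.1 x₀ (by rintro rfl; omega))
    obtain ⟨v5, hv5⟩ := exists_level hc (u := x₀) (v := x₁) (i := 5) (by omega)
    obtain ⟨s, hs, -, hs1, hs2⟩ := lev_dom (x := x₀) hc (h.1 v5 (by rintro rfl; omega))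
    refine ⟨r, hr, by omega, fun t ht ht3 => ?_⟩
    by_contra hne
    have h3 : ({t, r, s} : Finset V).card = 3 := by
      rw [card_insert_of_notMem, card_insert_of_notMem, card_singleton]
      · rw [mem_singleton]; rintro rfl; omega
      · rw [mem_insert, mem_singleton]
        rintro (h1 | h1)
        · exact hne h1
        · subst h1; omega
    have h4 : ({t, r, s} : Finset V) ⊆ T.filter (fun t => G.dist x₀ t ≤ 6) := by
      intro a ha
      simp only [mem_insert, mem_singleton] at ha
      rw [mem_filter]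
      rcases ha with rfl | rfl | rfl
      · exact ⟨ht, by omega⟩
      · exact ⟨hr, by omega⟩
      · exact ⟨hs, by omega⟩
    have := card_le_card h4
    omega

omit [DecidableEq V] in
/-- contradiction at the two ends -/
theorem ends (hc : G.Connected) {r x₀ : V}
    (hr : G.dist x₀ r = 1 ∧ ∀ u, G.dist x₀ u ≤ 2 → (r = u ∨ G.Adj r u)) {T : Finset V}
    (h : PreciselyDominates G T r) : False := by
  have hne : x₀ ≠ r := by
    rintro rfl
    have := hr.1
    rw [SimpleGraph.dist_self] at this
    omega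
  obtain ⟨t, ht, -, h1, -⟩ := lev_dom (x := x₀) hc (h.1 x₀ hne)
  rw [SimpleGraph.dist_self] at h1
  refine h.2 ?_
  rcases hr.2 t (by omega) with h2 | h2
  · exact Or.inl (h2 ▸ ht)
  · exact Or.inr ⟨t, ht, h2.symm⟩

/-- The upper bound for `k ≥ 5`. -/
theorem upper_large (hc : G.Connected) {q : ℕ} (hq : 3 ≤ q) (hG : Conservative (q + 2) G) (x₀ x₁ : V) :
    G.dist x₀ x₁ < 3 * q := by
  by_contra hcon
  have hd : 3 * q ≤ G.dist x₀ x₁ := not_lt.mp hcon
  obtain ⟨r, hr⟩ := lemA hc hq hG hd
  obtain ⟨r', hr'⟩ := lemA (x₀ := x₁) (x₁ := x₀) hc hq hG (by rw [SimpleGraph.dist_comm]; exact hd)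
  have h1 := hc.dist_triangle (u := x₀) (v := r) (w := x₁)
  have h2 := hc.dist_triangle (u := r) (v := r') (w := x₁)
  have h3 : G.dist r' x₁ = 1 := by rw [SimpleGraph.dist_comm]; exact hr'.1
  have h4 := hr.1
  have hne : r ≠ r' := by
    rintro rfl
    rw [SimpleGraph.dist_self] at h2
    omega
  have hadj : ¬ G.Adj r r' := fun h => by
    have := SimpleGraph.dist_eq_one_iff_adj.mpr h
    omega
  obtain ⟨S, -, h | h⟩ := hG.2 r r' hne hadj
  · exact ends hc hr' h
  · exact ends hc hr h

/-- The upper bound for `k = 2`. -/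
theorem upper_two (hc : G.Connected) (hG : Conservative 2 G) (x₀ x₁ : V) : G.dist x₀ x₁ ≤ 2 := by
  obtain ⟨A, hA, hdom⟩ := hG.1.1
  obtain ⟨a, rfl⟩ := card_eq_one.mp (show A.card = 1 by omega)
  have h : ∀ v, G.dist a v ≤ 1 := by
    intro v
    obtain ⟨t, ht, -, -, h2⟩ := lev_dom (x := a) hc (hdom v)
    rw [mem_singleton] at ht
    subst ht
    rw [SimpleGraph.dist_self] at h2
    omega
  have h1 := hc.dist_triangle (u := x₀) (v := a) (w := x₁)
  have h2 := h x₀
  have h3 := h x₁
  rw [SimpleGraph.dist_comm] at h2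
  omega

/-- The upper bound for `k = 3`. -/
theorem upper_three (hc : G.Connected) (hG : Conservative 3 G) (x₀ x₁ : V) :
    G.dist x₀ x₁ ≤ 4 := by
  by_contra hcon
  have hd : 5 ≤ G.dist x₀ x₁ := by omega
  have h0 : G.dist x₀ x₀ = 0 := SimpleGraph.dist_self
  obtain ⟨v1, hv1⟩ := exists_level hc (u := x₀) (v := x₁) (i := 1) (by omega)
  obtain ⟨v2, hv2⟩ := exists_level hc (u := x₀) (v := x₁) (i := 2) (by omega)
  obtain ⟨y, hy⟩ := exists_level hc (u := x₀) (v := x₁) (i := 3) (by omega)
  obtain ⟨v5, hv5⟩ := exists_level hc (u := x₀) (v := x₁) (i := 5) (by omega)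
  obtain ⟨S, hS, h⟩ := hG.2 x₀ y (by rintro rfl; omega) (fun h => by
    have := lev_adj (x := x₀) hc h; omega)
  obtain ⟨t, rfl⟩ := card_eq_one.mp (show S.card = 1 by omega)
  rcases h with h | h
  · obtain ⟨a, ha, -, ha1, ha2⟩ := lev_dom (x := x₀) hc (h.1 v2 (by rintro rfl; omega))
    obtain ⟨b, hb, -, hb1, hb2⟩ := lev_dom (x := x₀) hc (h.1 v5 (by rintro rfl; omega))
    rw [mem_insert, mem_singleton] at ha hb
    rcases ha with rfl | rfl <;> rcases hb with rfl | rfl <;> omega
  · obtain ⟨a, ha, -, ha1, ha2⟩ := lev_dom (x := x₀) hc (h.1 v1 (by rintro rfl; omega))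
    obtain ⟨b, hb, -, hb1, hb2⟩ := lev_dom (x := x₀) hc (h.1 v5 (by rintro rfl; omega))
    rw [mem_insert, mem_singleton] at ha hb
    rcases ha with rfl | rfl <;> rcases hb with rfl | rfl <;> omega

/-- The upper bound for `k = 4`. -/
theorem upper_four (hc : G.Connected) (hG : Conservative 4 G) (x₀ x₁ : V) :
    G.dist x₀ x₁ ≤ 6 := by
  by_contra hcon
  have hd : 7 ≤ G.dist x₀ x₁ := by omega
  have h0 : G.dist x₀ x₀ = 0 := SimpleGraph.dist_self
  obtain ⟨x, hx⟩ := exists_level hc (u := x₀) (v := x₁) (i := 2) (by omega)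
  obtain ⟨v3, hv3⟩ := exists_level hc (u := x₀) (v := x₁) (i := 3) (by omega)
  obtain ⟨v4, hv4⟩ := exists_level hc (u := x₀) (v := x₁) (i := 4) (by omega)
  obtain ⟨y, hy⟩ := exists_level hc (u := x₀) (v := x₁) (i := 5) (by omega)
  obtain ⟨v7, hv7⟩ := exists_level hc (u := x₀) (v := x₁) (i := 7) (by omega)
  obtain ⟨S, hS, h⟩ := hG.2 x y (by rintro rfl; omega) (fun h => by
    have := lev_adj (x := x₀) hc h; omega)
  obtain ⟨s, t, -, rfl⟩ := card_eq_two.mp (show S.card = 2 by omega)
  rcases h with h | h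
  · obtain ⟨a, ha, -, ha1, ha2⟩ := lev_dom (x := x₀) hc (h.1 x₀ (by rintro rfl; omega))
    obtain ⟨b, hb, -, hb1, hb2⟩ := lev_dom (x := x₀) hc (h.1 v7 (by rintro rfl; omega))
    obtain ⟨c, hc', -, hc1, hc2⟩ := lev_dom (x := x₀) hc (h.1 v4 (by rintro rfl; omega))
    simp only [mem_insert, mem_singleton] at ha hb hc'
    rcases ha with rfl | rfl | rfl <;> rcases hb with rfl | rfl | rfl <;>
      rcases hc' with rfl | rfl | rfl <;> omega
  · obtain ⟨a, ha, -, ha1, ha2⟩ := lev_dom (x := x₀) hc (h.1 x₀ (by rintro rfl; omega))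
    obtain ⟨b, hb, -, hb1, hb2⟩ := lev_dom (x := x₀) hc (h.1 v7 (by rintro rfl; omega))
    obtain ⟨c, hc', -, hc1, hc2⟩ := lev_dom (x := x₀) hc (h.1 v3 (by rintro rfl; omega))
    simp only [mem_insert, mem_singleton] at ha hb hc'
    rcases ha with rfl | rfl | rfl <;> rcases hb with rfl | rfl | rfl <;>
      rcases hc' with rfl | rfl | rfl <;> omega

end upper

end Pool.Agent.Q295.KC
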